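import Pool.Agent.H4.TwistedPeriod.Assemble

/-!
# Multiplicity one for twisted `GL_n(E)`-periods of `GL_{2n}(F)` over finite fields

`F` is a finite field, `E/F` its quadratic extension.  An `F`-basis `b` of `E^n` embeds
`GL_n(E)` into `GL_{2n}(F)` (`embed b h` is the matrix in the basis `b` of the `F`-linear map
`v ↦ h v` of `E^n`).  For every irreducible complex representation `π` of `GL_{2n}(F)` and every
character `χ` of `E^×`, the space of linear functionals `ℓ` with `ℓ (π(h) v) = χ(det h) ℓ(v)` has
dimension at most one.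
-/

open Matrix

namespace Pool.Agent.Results.MP_ee6fb2_al.TwistedPeriodMultOne

/-- The embedding `GL_n(E) → GL_{2n}(F)` attached to an `F`-basis `b` of `E^n`: the matrix in the
basis `b` of the `F`-linear map `v ↦ h v`. -/
noncomputable def embed {F E : Type*} [Field F] [Field E] [Algebra F E] {n : ℕ}
    (b : Module.Basis (Fin (2 * n)) F (Fin n → E)) : GL (Fin n) E →* GL (Fin (2 * n)) F :=
  Units.map
    { toFun := fun h => LinearMap.toMatrix b b ((Matrix.mulVecLin h).restrictScalars F)
      map_one' := by
        have : (Matrix.mulVecLin (1 : Matrix (Fin n) (Fin n) E)).restrictScalars F =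
            LinearMap.id := by
          refine LinearMap.ext fun v => ?_
          simp
        rw [this, LinearMap.toMatrix_id]
      map_mul' := fun x y => by
        have : (Matrix.mulVecLin (x * y)).restrictScalars F =
            ((Matrix.mulVecLin x).restrictScalars F).comp
              ((Matrix.mulVecLin y).restrictScalars F) := by
          refine LinearMap.ext fun v => ?_
          simp
        rw [this, LinearMap.toMatrix_comp b b b] }

/-- The space `Hom_H(π, χ ∘ det)` of linear functionals `ℓ : W → ℂ` with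
`ℓ (π(h) v) = χ(det h) ℓ(v)` for all `h ∈ GL_n(E)` and all `v ∈ W`. -/
def HomSpace {F E : Type*} [Field F] [Field E] [Algebra F E] {n : ℕ}
    (b : Module.Basis (Fin (2 * n)) F (Fin n → E)) {W : Type*} [AddCommGroup W] [Module ℂ W]
    (π : Representation ℂ (GL (Fin (2 * n)) F) W) (χ : Eˣ →* ℂˣ) :
    Submodule ℂ (W →ₗ[ℂ] ℂ) where
  carrier := {ℓ | ∀ (h : GL (Fin n) E) (v : W),
    ℓ (π (embed b h) v) = (χ (Matrix.GeneralLinearGroup.det h) : ℂ) * ℓ v}
  zero_mem' := fun h v => by simp
  add_mem' := fun {x y} hx hy h v => by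
    rw [LinearMap.add_apply, LinearMap.add_apply, hx h v, hy h v, mul_add]
  smul_mem' := fun c x hx h v => by
    rw [LinearMap.smul_apply, LinearMap.smul_apply, hx h v, smul_eq_mul, smul_eq_mul]
    ring

open Pool.Agent.H4.TwistedPeriod in
theorem result {F E : Type*} [Field F] [Finite F] [Field E] [Algebra F E]
    (hFE : Module.finrank F E = 2) (n : ℕ) (b : Module.Basis (Fin (2 * n)) F (Fin n → E))
    {W : Type*} [AddCommGroup W] [Module ℂ W]
    (π : Representation ℂ (GL (Fin (2 * n)) F) W) (hπ : π.IsIrreducible) (χ : Eˣ →* ℂˣ) :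
    Module.rank ℂ (HomSpace b π χ) ≤ 1 := by
  classical
  have hfd : FiniteDimensional F E := Module.finite_of_finrank_eq_succ hFE
  have hfinE : Finite E := Module.finite_of_finite F
  obtain ⟨D⟩ := exists_QD F E hFE
  let e : LinearMap.GeneralLinearGroup F (Fin n → E) ≃* GL (Fin (2 * n)) F :=
    Units.mapEquiv (LinearMap.toMatrixAlgEquiv b).toMulEquiv
  have he : ∀ h : GL (Fin n) E, embed b h = e (actF F h) := fun h => Units.ext rfl
  exact gelfand (embed b) (χ.comp Matrix.GeneralLinearGroup.det)
    (fun g => e (adjU D (e.symm g)))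
    (fun x y => by rw [map_mul, adjU_mul, map_mul])
    trU ⟨Function.LeftInverse.injective trU_trU, Function.RightInverse.surjective trU_trU⟩
    (fun h => by rw [he, MulEquiv.symm_apply_apply, adjU_actF, ← he])
    (fun h => by rw [MonoidHom.comp_apply, det_trU, ← MonoidHom.comp_apply])
    (fun g => by
      obtain ⟨h₁, h₂, h3, h4⟩ := double_coset D (e.symm g)
      refine ⟨h₁, h₂, ?_, ?_⟩
      · rw [h3, map_mul, map_mul, ← he, ← he, MulEquiv.apply_symm_apply]
      · rw [MonoidHom.comp_apply, MonoidHom.comp_apply, ← map_mul, h4, map_one])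
    π

end Pool.Agent.Results.MP_ee6fb2_al.TwistedPeriodMultOne
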